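import Pool.Agent.H44.KR.Targets

/-!
Board lck_modules, row AX2: goodness is local.
-/

set_option autoImplicit false

namespace Pool.Agent.H56.KR

open Pool.Agent.H68.BP Pool.Agent.H58.SF Pool.Agent.H53.NR Pool.Agent.H53.GM Pool.Agent.H44.KR
open Pool.Agent.H57.LCI (LocalCompletions Pre Realizes)
open Pool.Agent.H57.AR (tp ty)
open Pool.Agent.H57.EQ (Cx)
open Function
open Classical

theorem pf_AX2 : T_AX2 := by
  intro V ρ 𝔹 N hN L Q pl W _ C hS hU Z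
  obtain ⟨f, hf⟩ := hN W {p : Finset W × Str ρ Q // C.gd p.1 p.2}
    (fun p => {x | x ∈ p.1.1 ∧ inSh Z (pl (C.pt x))})
    (fun p l z => p.1.2 l (fun i => C.pt (z i))) (by
      intro U hUc
      obtain ⟨f, hf⟩ := hU U hUc Z
      refine ⟨f, ?_⟩
      rintro ⟨⟨g, κ⟩, hg⟩
      set g' : Finset W := g.filter fun x => x ∈ U with hg'
      have hsub : g' ⊆ g := Finset.filter_subset _ _
      have h1 := hS.dn g κ g' hg hsub
      obtain ⟨h2, h3⟩ := hf g' _ ⟨h1, fun x hx => (Finset.mem_filter.1 hx).2⟩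
      have hmem : ∀ x, x ∈ g → x ∈ U → x ∈ g' := fun x hx hx' => Finset.mem_filter.2 ⟨hx, hx'⟩
      refine ⟨?_, ?_⟩
      · rintro x ⟨⟨hx1, hx2⟩, hx3⟩ y ⟨⟨hy1, hy2⟩, hy3⟩ hxy
        have h4 := h2 x ⟨hmem x hx1 hx3, hx2⟩ y ⟨hmem y hy1 hy3, hy2⟩ hxy
        exact hS.tr g κ hg hx1 hy1 h4
      · intro l z hz
        have h4 := h3 l z (fun i => ⟨hmem _ (hz i).1.1 (hz i).2, (hz i).1.2⟩)
        rw [h4]
        exact ⟨fun h => h.1, fun h => ⟨h, fun i =>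
          Finset.mem_image_of_mem _ (hmem _ (hz i).1.1 (hz i).2)⟩⟩)
  refine ⟨f, fun g κ hg => ?_⟩
  obtain ⟨h1, h2⟩ := hf ⟨(g, κ), hg⟩
  exact ⟨fun x hx y hy hxy => congrArg C.pt (h1 x hx y hy hxy), fun l z hz => h2 l z hz⟩

end Pool.Agent.H56.KR
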