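import Pool.Agent.H44.KR.Targets

/-!
Board lck_modules, row AX3: amalgamation over guards.
-/

set_option autoImplicit false

namespace Pool.Agent.H56.KR

open Pool.Agent.H68.BP Pool.Agent.H58.SF Pool.Agent.H53.NR Pool.Agent.H53.GM Pool.Agent.H44.KR
open Pool.Agent.H57.LCI (LocalCompletions Pre Realizes)
open Pool.Agent.H57.AR (tp ty)
open Pool.Agent.H57.EQ (Cx)
open Function
open Classical

theorem pf_AX3 : T_AX3 := by
  intro V ρ 𝔹 hB L Q pl W _ C U₁ U₂ g₀ κ₀ hS hg₀ hU hgd hG₁ hG₂ Z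
  obtain ⟨f₁, hf₁⟩ := hG₁ Z
  obtain ⟨f₂, hf₂⟩ := hG₂ Z
  set A : Set W := {x | x ∈ g₀ ∧ inSh Z (pl (C.pt x))} with hA
  have h1 : Rz 𝔹 C.pt κ₀ A f₁ := hf₁ g₀ κ₀ ⟨hg₀, fun x hx => ((hU x).1 hx).1⟩
  have h2 : Rz 𝔹 C.pt κ₀ A f₂ := hf₂ g₀ κ₀ ⟨hg₀, fun x hx => ((hU x).1 hx).2⟩
  have hinj : ∀ f : W → V, Rz 𝔹 C.pt κ₀ A f → ∀ a ∈ A, ∀ b ∈ A, f a = f b ↔ a = b := by
    intro f hf a ha b hb
    refine ⟨fun h => hS.tr g₀ κ₀ hg₀ ha.1 hb.1 (hf.1 a ha b hb h), fun h => by rw [h]⟩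
  have hT : TpOn 𝔹 A f₁ f₂ := by
    refine ⟨fun a ha b hb => ?_, fun l z hz => ?_⟩
    · rw [hinj f₁ h1 a ha b hb, hinj f₂ h2 a ha b hb]
    · rw [h1.2 l z hz, h2.2 l z hz]
  obtain ⟨f, hft, hfA, -⟩ := hB.amg W A f₁ f₂ ∅ hT
  have he : ∀ x y, f x = f y ↔ f₁ x = f₁ y := fun x y =>
    iff_of_eq (congrFun (congrFun (congrArg Prod.fst hft) x) y)
  have hr : ∀ (l : Fin ρ.m) (z : Fin (ρ.ar l) → W), 𝔹 l (fun i => f (z i)) ↔
      𝔹 l (fun i => f₁ (z i)) := fun l z =>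
    iff_of_eq (congrFun (congrFun (congrArg Prod.snd hft) l) z)
  refine ⟨fun x => if x ∈ U₁ then f x else f₂ x, fun g κ hg => ?_⟩
  rcases hgd g κ hg with h3 | h3
  · have h4 := hf₁ g κ ⟨hg, h3⟩
    have h5 : ∀ x ∈ g, (if x ∈ U₁ then f x else f₂ x) = f x := fun x hx => if_pos (h3 x hx)
    refine ⟨fun x hx y hy hxy => ?_, fun l z hz => ?_⟩
    · simp only at hxy
      rw [h5 x hx.1, h5 y hy.1, he] at hxy
      exact h4.1 x hx y hy hxy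
    · have h6 : (fun i => if z i ∈ U₁ then f (z i) else f₂ (z i)) = fun i => f (z i) :=
        funext fun i => h5 _ (hz i).1
      rw [h6, hr]
      exact h4.2 l z hz
  · have h4 := hf₂ g κ ⟨hg, h3⟩
    have h5 : ∀ x ∈ {x | x ∈ g ∧ inSh Z (pl (C.pt x))}, (if x ∈ U₁ then f x else f₂ x) = f₂ x := by
      rintro x ⟨hx, hx'⟩
      by_cases h6 : x ∈ U₁
      · rw [if_pos h6]
        exact hfA x ⟨(hU x).2 ⟨h6, h3 x hx⟩, hx'⟩
      · rw [if_neg h6]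
    refine ⟨fun x hx y hy hxy => ?_, fun l z hz => ?_⟩
    · simp only at hxy
      rw [h5 x hx, h5 y hy] at hxy
      exact h4.1 x hx y hy hxy
    · have h6 : (fun i => if z i ∈ U₁ then f (z i) else f₂ (z i)) = fun i => f₂ (z i) :=
        funext fun i => h5 _ (hz i)
      rw [h6]
      exact h4.2 l z hz

end Pool.Agent.H56.KR
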