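import Pool.Agent.H44.KR.Targets

/-!
Board lck_modules, row IDX: the copies with indices.
-/

set_option autoImplicit false

namespace Pool.Agent.H56.KR

open Pool.Agent.H68.BP Pool.Agent.H58.SF Pool.Agent.H53.NR Pool.Agent.H53.GM Pool.Agent.H44.KR
open Pool.Agent.H57.LCI (LocalCompletions Pre Realizes)
open Pool.Agent.H57.AR (tp ty)
open Pool.Agent.H57.EQ (Cx)
open Function
open Classical

section

variable {V X : Type} {ρ : Sig} {L R : ℕ}

theorem mem_img {A B : Type} (s : Finset A) (f : A → B) (b : B) :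
    b ∈ s.image f ↔ ∃ a ∈ s, f a = b := Finset.mem_image

/-- the label of a copy -/
def lab (C : GS ρ L X) (ξ : X → Fin R) (g' : Finset X) : Str ρ (Pl L × Fin R) :=
  fun l q => ∃ z : Fin (ρ.ar l) → X, (∀ i, z i ∈ g') ∧
    (∃ Z, ∀ i, inSh Z (C.pl (z i))) ∧ C.st l z ∧ q = fun i => (C.pl (z i), ξ (z i))

/-- the labels at tuples of parts -/
theorem lab_iff {C : GS ρ L X} {ξ : X → Fin R}
    (hξ : ∀ x y, C.pl x = C.pl y → ξ x = ξ y → x = y) (g' : Finset X) (l : Fin ρ.m)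
    (x : Fin (ρ.ar l) → X) (hx : ∀ i, x i ∈ g') (hZ : ∃ Z, ∀ i, inSh Z (C.pl (x i))) :
    lab C ξ g' l (fun i => (C.pl (x i), ξ (x i))) ↔ C.st l x := by
  constructor
  · rintro ⟨z, -, -, hst, hq⟩
    have h1 : x = z := by
      funext i
      have h2 := congrFun hq i
      exact hξ _ _ (congrArg Prod.fst h2) (congrArg Prod.snd h2)
    rw [h1]
    exact hst
  · intro h
    exact ⟨x, hx, hZ, h, rfl⟩

theorem lab_empty {C : GS ρ L X} {ξ : X → Fin R} (har : ∀ l, 1 ≤ ρ.ar l) :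
    lab C ξ ∅ = fun _ _ => False := by
  funext l q
  refine propext ⟨?_, fun h => h.elim⟩
  rintro ⟨z, hz, -⟩
  exact absurd (hz ⟨0, har l⟩) (Finset.notMem_empty _)

end

theorem pf_IDX : T_IDX := by
  intro V ρ 𝔹 hB L R X _ _ C Ξ hC hSg hΞ hinj
  have hpt : ∀ (ξ : Ξ) (x y : X), (cpy C R Ξ).pt (ξ, x) = (cpy C R Ξ).pt (ξ, y) → x = y := by
    intro ξ x y h
    exact hinj ξ.1 ξ.2 x y (congrArg Prod.fst h) (congrArg Prod.snd h)
  have himg : ∀ (ξ : Ξ) (g' : Finset X) (a : Ξ × X),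
      a ∈ g'.image (fun x => (ξ, x)) ↔ a.1 = ξ ∧ a.2 ∈ g' := by
    intro ξ g' a
    rw [Finset.mem_image]
    constructor
    · rintro ⟨x, hx, rfl⟩
      exact ⟨rfl, hx⟩
    · rintro ⟨h1, h2⟩
      exact ⟨a.2, h2, Prod.ext h1.symm rfl⟩
  have hsys : IsSys (kC 𝔹 L Prod.fst) (cpy C R Ξ) := by
    refine ⟨?_, ?_, ?_, ?_⟩
    · rintro g κ ⟨ξ, g', hg', rfl, -⟩ a ha b hb hab
      have ha' := (himg ξ g' a).1 ha
      have hb' := (himg ξ g' b).1 hb
      obtain ⟨a1, a2⟩ := a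
      obtain ⟨b1, b2⟩ := b
      obtain ⟨rfl, h2⟩ := ha'
      obtain ⟨h3, h4⟩ := hb'
      simp only at h3
      subst h3
      rw [hpt _ a2 b2 hab]
    · rintro g κ h ⟨ξ, g', hg', rfl, rfl⟩ hh
      refine ⟨ξ, g'.filter (fun x => (ξ, x) ∈ h), hC.dn g' _ hg' (Finset.filter_subset _ _), ?_, ?_⟩
      · ext a
        rw [himg, Finset.mem_filter]
        constructor
        · intro ha
          have h1 := (himg ξ g' a).1 (hh ha)
          refine ⟨h1.1, h1.2, ?_⟩
          rw [← h1.1]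
          exact ha
        · rintro ⟨h1, -, h2⟩
          rw [← h1] at h2
          exact h2
      · funext l q
        refine propext ⟨?_, ?_⟩
        · rintro ⟨⟨z, hz, hZ, hst, hq⟩, hqi⟩
          refine ⟨z, fun i => Finset.mem_filter.2 ⟨hz i, ?_⟩, hZ, hst, hq⟩
          obtain ⟨⟨a1, a2⟩, ha, hae⟩ := (mem_img _ _ _).1 (hqi i)
          have h1 := (himg ξ g' _).1 (hh ha)
          obtain ⟨h2, h3⟩ := h1
          simp only at h2
          subst h2
          rw [hq] at hae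
          have h4 := hpt _ a2 (z i) hae
          rw [← h4]
          exact ha
        · rintro ⟨z, hz, hZ, hst, hq⟩
          refine ⟨⟨z, fun i => (Finset.mem_filter.1 (hz i)).1, hZ, hst, hq⟩, fun i => ?_⟩
          refine (mem_img _ _ _).2 ⟨(ξ, z i), (Finset.mem_filter.1 (hz i)).2, ?_⟩
          rw [hq]
          rfl
    · rintro g κ κ' ⟨ξ, g', hg', rfl, rfl⟩ ⟨ξ₁, g₁, hg₁, he, rfl⟩
      rcases g'.eq_empty_or_nonempty with h1 | ⟨x, hx⟩
      · have h2 : g₁ = ∅ := by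
          rw [h1, Finset.image_empty] at he
          exact Finset.image_eq_empty.1 he.symm
        change lab C ξ.1 g' = lab C ξ₁.1 g₁
        rw [h1, h2, lab_empty hB.ar, lab_empty hB.ar]
      · have h2 : ((ξ, x) : Ξ × X) ∈ g₁.image (fun x => (ξ₁, x)) := by
          rw [← he, himg]
          exact ⟨rfl, hx⟩
        have h3 : ξ = ξ₁ := ((himg ξ₁ g₁ _).1 h2).1
        subst h3
        have h4 : g' = g₁ := by
          ext y
          have h5 : ((ξ, y) : Ξ × X) ∈ g'.image (fun x => (ξ, x)) ↔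
              ((ξ, y) : Ξ × X) ∈ g₁.image (fun x => (ξ, x)) := by rw [he]
          rw [himg, himg] at h5
          simpa using h5
        subst h4
        rfl
    · rintro g κ ⟨ξ, g', hg', rfl, rfl⟩
      have hα : ∀ q, q ∈ @Finset.image _ _ (fun a b => propDecidable (a = b)) (cpy C R Ξ).pt
          (g'.image (fun x => (ξ, x))) ↔ ∃ x ∈ g', (C.pl x, ξ.1 x) = q := by
        intro q
        rw [mem_img]
        constructor
        · rintro ⟨a, ha, rfl⟩
          obtain ⟨h1, h2⟩ := (himg ξ g' a).1 ha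
          refine ⟨a.2, h2, ?_⟩
          rw [← h1]
          rfl
        · rintro ⟨x, hx, rfl⟩
          exact ⟨(ξ, x), (himg ξ g' _).2 ⟨rfl, hx⟩, rfl⟩
      refine ⟨?_, ?_, fun Z => ?_⟩
      · intro p hp q hq
        obtain ⟨x, hx, rfl⟩ := (hα p).1 hp
        obtain ⟨y, hy, rfl⟩ := (hα q).1 hq
        exact hC.adj g' hg' x hx y hy
      · rintro l q ⟨z, hz, hZ, hst, rfl⟩
        exact ⟨fun i => (hα _).2 ⟨z i, hz i, rfl⟩, hZ⟩
      · obtain ⟨f, hf⟩ := hC.rz Z
        obtain ⟨hf1, hf2⟩ := hf g' hg'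
        have : Nonempty V := hB.ne
        set F : Pl L × Fin R → V := fun q => if h : ∃ x ∈ g', (C.pl x, ξ.1 x) = q then f h.choose
          else Classical.arbitrary V with hF
        have hFx : ∀ x ∈ g', F (C.pl x, ξ.1 x) = f x := by
          intro x hx
          have h : ∃ x' ∈ g', (C.pl x', ξ.1 x') = (C.pl x, ξ.1 x) := ⟨x, hx, rfl⟩
          simp only [hF]
          rw [dif_pos h]
          have h1 := h.choose_spec.2
          rw [hinj ξ.1 ξ.2 _ _ (congrArg Prod.fst h1) (congrArg Prod.snd h1)]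
        refine ⟨F, ?_, ?_⟩
        · rintro p ⟨hp, hpZ⟩ q ⟨hq, hqZ⟩ hpq
          obtain ⟨x, hx, rfl⟩ := (hα p).1 hp
          obtain ⟨y, hy, rfl⟩ := (hα q).1 hq
          rw [hFx x hx, hFx y hy] at hpq
          have h1 : x = y := hf1 x ⟨hx, hpZ⟩ y ⟨hy, hqZ⟩ hpq
          rw [h1]
        · intro l q hq
          choose x hx hxq using fun i => (hα _).1 (hq i).1
          have h1 : q = fun i => (C.pl (x i), ξ.1 (x i)) := funext fun i => (hxq i).symm
          have hZx : ∀ i, inSh Z (C.pl (x i)) := by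
            intro i
            have := (hq i).2
            rw [h1] at this
            exact this
          have h2 : (fun i => F (q i)) = fun i => f (x i) := by
            rw [h1]
            exact funext fun i => hFx _ (hx i)
          rw [h2, hf2 l x fun i => ⟨hx i, hZx i⟩]
          change C.st l x ↔ lab C ξ.1 g' l q
          rw [h1]
          exact (lab_iff (hinj ξ.1 ξ.2) g' l x hx ⟨Z, hZx⟩).symm
  refine ⟨hsys, ?_, ?_⟩
  · intro Z
    obtain ⟨f, hf⟩ := hC.rz Z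
    refine ⟨fun a => f a.2, ?_⟩
    rintro g κ ⟨ξ, g', hg', rfl, rfl⟩
    obtain ⟨hf1, hf2⟩ := hf g' hg'
    refine ⟨?_, ?_⟩
    · rintro ⟨a1, a2⟩ ⟨ha, haZ⟩ ⟨b1, b2⟩ ⟨hb, hbZ⟩ hab
      obtain ⟨h1, h2⟩ := (himg ξ g' _).1 ha
      obtain ⟨h3, h4⟩ := (himg ξ g' _).1 hb
      simp only at h1 h3 hab
      subst h1
      subst h3
      have h5 : a2 = b2 := hf1 a2 ⟨h2, haZ⟩ b2 ⟨h4, hbZ⟩ hab
      rw [h5]
    · intro l z hz
      have h1 : ∀ i, z i = (ξ, (z i).2) := fun i =>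
        Prod.ext ((himg ξ g' _).1 (hz i).1).1 rfl
      have h2 : ∀ i, (z i).2 ∈ g' := fun i => ((himg ξ g' _).1 (hz i).1).2
      have h3 : ∀ i, inSh Z (C.pl (z i).2) := fun i => (hz i).2
      have h4 := hf2 l (fun i => (z i).2) fun i => ⟨h2 i, h3 i⟩
      rw [h4]
      change C.st l (fun i => (z i).2) ↔ lab C ξ.1 g' l (fun i => (cpy C R Ξ).pt (z i))
      have h5 : (fun i => (cpy C R Ξ).pt (z i)) = fun i => (C.pl (z i).2, ξ.1 (z i).2) := by
        funext i
        rw [h1 i]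
        rfl
      rw [h5]
      exact (lab_iff (hinj ξ.1 ξ.2) g' l _ h2 ⟨Z, h3⟩).symm
  · obtain ⟨ξ, hξ⟩ := hΞ
    have h0 : C.gd ∅ := hC.dn _ _ (hSg (Classical.arbitrary X)) (Finset.empty_subset _)
    refine ⟨⟨ξ, hξ⟩, ∅, h0, (Finset.image_empty _).symm, ?_⟩
    exact (lab_empty hB.ar).symm

end Pool.Agent.H56.KR
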