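import Pool.Agent.H44.KR.Targets

/-!
Board lck_modules, row LCS: local completions for families of labelled sets.
-/

set_option autoImplicit false

namespace Pool.Agent.H56.KR

open Pool.Agent.H68.BP Pool.Agent.H58.SF Pool.Agent.H53.NR Pool.Agent.H53.GM Pool.Agent.H44.KR
open Pool.Agent.H57.LCI (LocalCompletions Pre Realizes)
open Pool.Agent.H57.AR (tp ty)
open Pool.Agent.H57.EQ (Cx)
open Function
open Classical

theorem pf_LCS : T_LCS := by
  intro V ρ 𝔹 hB
  obtain ⟨M, hM⟩ := hB.lc (max 2 ρ.width)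
  refine ⟨M, fun W Λ _ s S hU => ?_⟩
  set n := Nat.card W with hn
  set e : Fin n ≃ W := (Finite.equivFin W).symm with he
  set P : Set (Pre ρ (Fin n)) := {p | p.1 ≤ max 2 ρ.width ∧ Injective p.2.1 ∧
    ∃ a, (∀ i, e (p.2.1 i) ∈ s a) ∧ p.2.2 = pull (S a) (fun i => e (p.2.1 i))} with hP
  obtain ⟨f, hf⟩ := hM n P (fun p hp => hp.1) (by
    intro U hUc
    obtain ⟨f, hf⟩ := hU (U.map e.toEmbedding) (by rw [Finset.card_map]; exact hUc)
    refine ⟨fun x => f (e x), ?_⟩
    rintro ⟨k, t, T⟩ ⟨-, ht, a, hta, hT⟩ htU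
    obtain ⟨h1, h2⟩ := hf a
    have hmem : ∀ i, e (t i) ∈ {x | x ∈ s a ∧ x ∈ U.map e.toEmbedding} := fun i =>
      ⟨hta i, Finset.mem_map_of_mem _ (htU i)⟩
    refine ⟨fun i j hij => ?_, fun l z => ?_⟩
    · exact ht (e.injective (h1 _ (hmem i) _ (hmem j) hij))
    · have h3 := h2 l (fun i => e (t (z i))) (fun i => hmem (z i))
      change T l z ↔ 𝔹 l (fun i => f (e (t (z i))))
      rw [h3, show T = pull (S a) (fun i => e (t i)) from hT]
      rfl)
  refine ⟨fun x => f (e.symm x), fun a => ⟨fun x hx y hy hxy => ?_, fun l z hz => ?_⟩⟩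
  · by_contra hne
    have hne' : e.symm x ≠ e.symm y := fun h => hne (e.symm.injective h)
    have h1 := hf ⟨2, ![e.symm x, e.symm y], pull (S a) fun i => e (![e.symm x, e.symm y] i)⟩
      ⟨le_max_left _ _, ?_, a, ?_, rfl⟩
    · have h2 : (0 : Fin 2) = 1 := h1.1 (a₁ := (0 : Fin 2)) (a₂ := (1 : Fin 2)) hxy
      exact Fin.zero_ne_one h2
    · intro i j hij
      fin_cases i <;> fin_cases j
      · rfl
      · exact absurd hij hne'
      · exact absurd hij.symm hne'
      · rfl
    · intro i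
      fin_cases i
      · change e (e.symm x) ∈ s a
        rw [e.apply_symm_apply]
        exact hx
      · change e (e.symm y) ∈ s a
        rw [e.apply_symm_apply]
        exact hy
  · set Z : Finset (Fin n) := Finset.univ.image fun i => e.symm (z i) with hZ
    have hc : Z.card ≤ max 2 ρ.width := by
      refine le_trans Finset.card_image_le ?_
      rw [Finset.card_univ, Fintype.card_fin]
      exact le_trans (Finset.le_sup (f := ρ.ar) (Finset.mem_univ l)) (le_max_right _ _)
    have g := Z.equivFin.symm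
    have hmem : ∀ i, e.symm (z i) ∈ Z := fun i => Finset.mem_image_of_mem _ (Finset.mem_univ i)
    have h1 := (hf ⟨Z.card, fun i => (g i : Fin n), pull (S a) fun i => e (g i : Fin n)⟩
      ⟨hc, fun i j h => g.injective (Subtype.ext h), a, fun i => by
        obtain ⟨j, -, hj⟩ := Finset.mem_image.1 (g i).2
        change e ((g i : Z) : Fin n) ∈ s a
        rw [← hj, e.apply_symm_apply]
        exact hz j, rfl⟩).2 l (fun i => g.symm ⟨e.symm (z i), hmem i⟩)
    have h3 : (S a l (fun i => e ((g (g.symm ⟨e.symm (z i), hmem i⟩) : Z) : Fin n))) ↔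
        𝔹 l (fun i => f ((g (g.symm ⟨e.symm (z i), hmem i⟩) : Z) : Fin n)) := h1
    have h4 : (fun i => e ((g (g.symm ⟨e.symm (z i), hmem i⟩) : Z) : Fin n)) = z := by
      funext i
      rw [Equiv.apply_symm_apply]
      exact e.apply_symm_apply (z i)
    have h5 : (fun i => f ((g (g.symm ⟨e.symm (z i), hmem i⟩) : Z) : Fin n)) =
        fun i => f (e.symm (z i)) := by
      funext i
      rw [Equiv.apply_symm_apply]
    rw [h4, h5] at h3
    exact h3.symm

end Pool.Agent.H56.KR
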