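import Pool.Agent.H44.KR.Targets

/-!
Board lck_modules, row UNF: the unfolding exists.
-/

set_option autoImplicit false

namespace Pool.Agent.H56.KR

open Pool.Agent.H68.BP Pool.Agent.H58.SF Pool.Agent.H53.NR Pool.Agent.H53.GM Pool.Agent.H44.KR
open Pool.Agent.H57.LCI (LocalCompletions Pre Realizes)
open Pool.Agent.H57.AR (tp ty)
open Pool.Agent.H57.EQ (Cx)
open Function
open Classical

section

variable {L : ℕ}

/-- places below the free levels -/
def low (tt : Fin 3 → Fin L) : Pl L → Prop
  | Sum.inl _ => True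
  | Sum.inr (Sum.inl p) => p.1 < tt p.2.1
  | Sum.inr (Sum.inr _) => False

/-- the letter of a place -/
def dl : Pl L → Fin 2
  | Sum.inl _ => 0
  | Sum.inr (Sum.inl p) => p.2.2
  | Sum.inr (Sum.inr d) => d

theorem lev_low {tt : Fin 3 → Fin L} {r : Fin 3} {c : Fin 6} {p : Pl L} (h : At r c p)
    (hl : low tt p) : lev (reg p) ≤ tt r := by
  rcases p with c' | ⟨p | d⟩
  · exact Nat.zero_le _
  · obtain ⟨h1, -⟩ := h
    have h2 : p.1 < tt p.2.1 := hl
    rw [h1] at h2
    exact h2
  · exact absurd hl id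

theorem lev_high {tt : Fin 3 → Fin L} {r : Fin 3} {c : Fin 6} {p : Pl L} (h : At r c p)
    (hl : ¬ low tt p) (hr : reg p ≠ some (some (tt r, r))) : (tt r : ℕ) + 2 ≤ lev (reg p) := by
  rcases p with c' | ⟨p | d⟩
  · exact absurd trivial hl
  · obtain ⟨h1, -⟩ := h
    have h2 : ¬ p.1 < tt p.2.1 := hl
    rw [h1] at h2
    have h3 : p.1 ≠ tt r := by
      intro h4
      refine hr ?_
      change some (some (p.1, p.2.1)) = _
      rw [h4, h1]
    have h4 : tt r < p.1 := lt_of_le_of_ne (not_lt.1 h2) h3.symm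
    change (tt r : ℕ) + 2 ≤ (p.1 : ℕ) + 1
    have h5 : (tt r : ℕ) < (p.1 : ℕ) := h4
    omega
  · change (tt r : ℕ) + 2 ≤ L + 1
    have := (tt r).2
    omega

theorem low_ne {tt : Fin 3 → Fin L} {p : Pl L} (hl : low tt p) : reg p ≠ some none := by
  rcases p with c' | ⟨p | d⟩
  · exact fun h => by cases h
  · exact fun h => by cases h
  · exact absurd hl id

theorem sh_low {tt : Fin 3 → Fin L} {r : Fin 3} {c : Fin 6} {p : Pl L} (h : At r c p)
    (hl : low tt p) : inSh (Sum.inl c) p := by
  rcases p with c' | ⟨p | d⟩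
  · exact h
  · obtain ⟨h1, h2⟩ := h
    change lr p.2.1 c = p.2.2
    rw [h1]
    exact h2
  · exact absurd hl id

theorem sh_high {tt : Fin 3 → Fin L} {r : Fin 3} {c : Fin 6} {p : Pl L} (h : At r c p)
    (hl : ¬ low tt p) : dl p = lr r c ∧ inSh (Sum.inr (lr r c)) p := by
  rcases p with c' | ⟨p | d⟩
  · exact absurd trivial hl
  · exact ⟨h.2.symm, h.2.symm⟩
  · have h1 : lr r c = d := h
    exact ⟨h1.symm, h1.symm⟩

/-- a free level -/
theorem free_level {W : Type} (U : Finset W) (ϱ : W → Rg L) (h : U.card < L) (r : Fin 3) :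
    ∃ t : Fin L, ∀ w ∈ U, ϱ w ≠ some (some (t, r)) := by
  by_contra hc
  push Not at hc
  choose w hw hwr using hc
  have h1 : Injective w := by
    intro t t' htt
    have h2 := hwr t
    rw [htt, hwr t'] at h2
    simp only [Option.some.injEq, Prod.mk.injEq, and_true] at h2
    exact h2.symm
  have h2 := Finset.card_le_card_of_injOn (s := (Finset.univ : Finset (Fin L))) (t := U) w
    (fun t _ => hw t) h1.injOn
  rw [Finset.card_univ, Fintype.card_fin] at h2
  omega

end

theorem pf_UNF : T_UNF := by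
  intro V ρ 𝔹 hB N L hNL hN X _ C hC
  choose F hF using hC.rz
  set q : X → Fin 6 → X × Fin 6 := fun x c => if reg (C.pl x) = some none then (x, 0) else (x, c)
    with hq
  have hq1 : ∀ x c, (q x c).1 = x := by
    intro x c
    simp only [hq]
    split_ifs <;> rfl
  obtain ⟨f, hf⟩ := hN (X × Fin 6) ({g : Finset X // C.gd g} × Fin 3 × Fin 6)
    (fun a => {w | ∃ x ∈ a.1.1, At a.2.1 a.2.2 (C.pl x) ∧ w = q x a.2.2})
    (fun _ l z => C.st l (fun i => (z i).1)) (by
      intro U hU
      choose tt htt using free_level U (fun w => reg (C.pl w.1)) (lt_of_le_of_lt hU hNL)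
      refine ⟨fun w => if low tt (C.pl w.1) then F (Sum.inl w.2) w.1
        else F (Sum.inr (dl (C.pl w.1))) w.1, ?_⟩
      rintro ⟨⟨g, hg⟩, r, c⟩
      simp only
      by_cases hall : ∀ w, ((∃ x ∈ g, At r c (C.pl x) ∧ w = q x c) ∧ w ∈ U) → low tt (C.pl w.1)
      · -- all elements are low
        have h1 : ∀ w, ((∃ x ∈ g, At r c (C.pl x) ∧ w = q x c) ∧ w ∈ U) →
            w.1 ∈ g ∧ inSh (Sum.inl c) (C.pl w.1) ∧ w = (w.1, c) := by
          rintro w ⟨⟨x, hx, hAt, rfl⟩, hwU⟩
          have hl := hall (q x c) ⟨⟨x, hx, hAt, rfl⟩, hwU⟩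
          rw [hq1] at hl
          rw [hq1]
          refine ⟨hx, sh_low hAt hl, ?_⟩
          simp only [hq]
          rw [if_neg (low_ne hl)]
        have h2 := hF (Sum.inl c) g hg
        refine ⟨?_, ?_⟩
        · rintro w hw w' hw' hww
          obtain ⟨a1, a2, a3⟩ := h1 w hw
          obtain ⟨b1, b2, b3⟩ := h1 w' hw'
          simp only at hww
          rw [if_pos (hall w hw), if_pos (hall w' hw')] at hww
          have e1 : w.2 = c := congrArg Prod.snd a3
          have e2 : w'.2 = c := congrArg Prod.snd b3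
          rw [e1, e2] at hww
          have h3 : w.1 = w'.1 := h2.1 w.1 ⟨a1, a2⟩ w'.1 ⟨b1, b2⟩ hww
          exact Prod.ext h3 (e1.trans e2.symm)
        · intro l z hz
          have h3 : (fun i => if low tt (C.pl (z i).1) then F (Sum.inl (z i).2) (z i).1
              else F (Sum.inr (dl (C.pl (z i).1))) (z i).1) =
              fun i => F (Sum.inl c) (z i).1 := by
            funext i
            rw [if_pos (hall _ (hz i))]
            have e1 : (z i).2 = c := congrArg Prod.snd (h1 _ (hz i)).2.2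
            rw [e1]
          rw [h3]
          exact h2.2 l (fun i => (z i).1) fun i => ⟨(h1 _ (hz i)).1, (h1 _ (hz i)).2.1⟩
      · -- no element is low
        push Not at hall
        obtain ⟨w₀, ⟨⟨y, hy, hyAt, rfl⟩, hyU⟩, hyl⟩ := hall
        rw [hq1] at hyl
        have hlev := lev_high hyAt hyl (by
          have := htt r _ hyU
          rw [hq1] at this
          exact this)
        have hnl : ∀ x ∈ g, At r c (C.pl x) → ¬ low tt (C.pl x) := by
          intro x hx hAt hl
          have h3 := lev_low hAt hl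
          have h4 := (hC.adj g hg x hx y hy).2.1
          omega
        set d : Fin 2 := lr r c with hd
        have h1 : ∀ w, ((∃ x ∈ g, At r c (C.pl x) ∧ w = q x c) ∧ w ∈ U) →
            w.1 ∈ g ∧ inSh (Sum.inr d) (C.pl w.1) ∧ w = q w.1 c ∧
              (if low tt (C.pl w.1) then F (Sum.inl w.2) w.1
                else F (Sum.inr (dl (C.pl w.1))) w.1) = F (Sum.inr d) w.1 := by
          rintro w ⟨⟨x, hx, hAt, rfl⟩, hwU⟩
          have hl := hnl x hx hAt
          obtain ⟨h5, h6⟩ := sh_high hAt hl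
          rw [hq1]
          refine ⟨hx, h6, rfl, ?_⟩
          rw [if_neg hl, h5]
        have h2 := hF (Sum.inr d) g hg
        refine ⟨?_, ?_⟩
        · rintro w hw w' hw' hww
          obtain ⟨a1, a2, a3, a4⟩ := h1 w hw
          obtain ⟨b1, b2, b3, b4⟩ := h1 w' hw'
          simp only at hww
          rw [a4, b4] at hww
          have h3 : w.1 = w'.1 := h2.1 w.1 ⟨a1, a2⟩ w'.1 ⟨b1, b2⟩ hww
          change w = w'
          rw [a3, b3, h3]
        · intro l z hz
          have h3 : (fun i => if low tt (C.pl (z i).1) then F (Sum.inl (z i).2) (z i).1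
              else F (Sum.inr (dl (C.pl (z i).1))) (z i).1) =
              fun i => F (Sum.inr d) (z i).1 := funext fun i => (h1 _ (hz i)).2.2.2
          rw [h3]
          exact h2.2 l (fun i => (z i).1) fun i => ⟨(h1 _ (hz i)).1, (h1 _ (hz i)).2.1⟩)
  refine ⟨fun c x => f (q x c), ?_, ?_⟩
  · intro x c c' hx
    simp only [hq]
    rw [if_pos hx, if_pos hx]
  · intro g hg r c
    obtain ⟨h1, h2⟩ := hf (⟨g, hg⟩, r, c)
    refine ⟨?_, ?_⟩
    · rintro x ⟨hx, hxA⟩ y ⟨hy, hyA⟩ hxy
      have h3 : q x c = q y c := h1 _ ⟨x, hx, hxA, rfl⟩ _ ⟨y, hy, hyA, rfl⟩ hxy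
      have h4 := congrArg Prod.fst h3
      rw [hq1, hq1] at h4
      exact h4
    · intro l z hz
      have h3 := h2 l (fun i => q (z i) c) fun i => ⟨z i, (hz i).1, (hz i).2, rfl⟩
      have h4 : (fun i => (q (z i) c).1) = z := funext fun i => hq1 _ _
      refine h3.trans ?_
      change C.st l (fun i => (q (z i) c).1) ↔ C.st l z
      rw [h4]

end Pool.Agent.H56.KR
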